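import Pool.Agent.LE.StmtsZ
import Pool.Agent.Helper54_LEW.CPF

/-!
# FLE: flatness of the landscape function with the precision `ε`, and conduction
-/

set_option autoImplicit false
set_option linter.unusedSectionVars false

open scoped Topology ENNReal NNReal
open MeasureTheory Filter ProbabilityTheory

noncomputable section

namespace Pool.Agent.LE.H81Z

open Pool.Agent.Anderson Pool.Agent.Loc Pool.Agent.Mob Pool.Agent.Helper54.Bal Pool.Agent.LY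
  Pool.Agent.LE.H54 Pool.Agent.LE.H54W Pool.Agent.BED

/-- once more Gaussian concentration, with the precision `ε` -/
theorem flatE_of_stage {d M : ℕ} [NeZero M] {ε C B z μ m p : ℝ} {v : ℝ≥0}
    {F : (Tor d M → ℝ) → ℝ} {U : Set (Tor d M → ℝ)} (hε : 0 < ε) (hC : 1 ≤ C) (hp : 0 ≤ p)
    (hS : Stage v C B z μ m p F U) :
    gau d M v {V | ¬ FlatE ε z μ V} ≤ ENNReal.ofReal (p + (M : ℝ) ^ d *
      (2 * Real.exp (-((ε * μ) ^ 2) / (5 * (m * (C + Real.sqrt B)) ^ 2 * v)))) := by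
  have hμ := hS.μpos
  have hm := hS.mpos
  have hK : 0 < m * (C + Real.sqrt B) := by
    have := Real.sqrt_nonneg B
    exact mul_pos hm (by linarith)
  have hcont := continuous_of_lip hK.le hS.lip
  have hint : ∫ y, F y ∂(Measure.pi fun _ : Tor d M => gaussianReal 0 v) = μ := hS.int
  have hsub : {V : Tor d M → ℝ | ¬ FlatE ε z μ V} ⊆
      Uᶜ ∪ ⋃ x, {V : Tor d M → ℝ | ε * μ ≤ |F (tr x V) - μ|} := by
    intro V hV
    by_contra hcon
    rw [Set.mem_union, not_or] at hcon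
    obtain ⟨g1, g2⟩ := hcon
    rw [Set.mem_compl_iff, not_not] at g1
    apply hV
    refine ⟨(hS.flat V g1).1, (hS.flat V g1).2.1, fun x => ?_⟩
    rw [hS.eq V g1 x]
    by_contra h
    exact g2 (Set.mem_iUnion.2 ⟨x, (not_le.1 h).le⟩)
  refine (measure_mono hsub).trans ?_
  refine gau_union hp (by positivity) hS.meas fun x => ?_
  have h1 := H55.gc (Tor d M) v F _ hK hS.lip (ε * μ) (by positivity)
  rw [hint] at h1
  have hmeas : MeasurableSet {V : Tor d M → ℝ | ε * μ ≤ |F V - μ|} :=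
    measurableSet_le measurable_const ((hcont.measurable.sub_const _).abs)
  have h3 := (H61.cov d M z 0 x).2.2.2.2.2 v
  have h2 : gau d M v {V : Tor d M → ℝ | ε * μ ≤ |F (tr x V) - μ|} =
      gau d M v {V : Tor d M → ℝ | ε * μ ≤ |F V - μ|} :=
    h3.measure_preimage hmeas.nullMeasurableSet
  rw [h2]
  exact h1

theorem flatE (d : ℕ) (hd : 3 ≤ d) (ε : ℝ) (hε : 0 < ε) (hε1 : ε ≤ 1 / 50) :
    ∃ c0 C0 : ℝ, 0 < c0 ∧ 0 < C0 ∧
      ∀ (M : ℕ) [NeZero M] (t : ℝ) (σ : ℝ≥0) (p : ℝ), 3 ≤ M → 1 ≤ t → t ≤ M → 0 < σ → σ ≤ 1 →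
      p = C0 * (1 + Real.log t) * (M : ℝ) ^ d *
        Real.exp (-c0 / ((σ : ℝ) ^ 2 * growth d t)) →
      p ≤ 1 / 2 →
      ∃ z μ : ℝ, 10 * t ≤ μ ∧ μ ≤ 12 * t ∧ z ≤ 2 * d + 1 ∧
        |z - 2 * d| ≤ C0 * ((σ : ℝ) ^ 2 + 1 / t + Real.sqrt p) ∧
        gau d M (σ ^ 2) {V | ¬ FlatE ε z μ V} ≤ ENNReal.ofReal p := by
  obtain ⟨C, hC, hSumC⟩ := sumAll d hd
  have hC0 : 0 < C := by linarith
  refine ⟨ε ^ 2 / (288000 * C ^ 2), 88 + 4 * C, by positivity, by positivity, ?_⟩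
  intro M _ t σ p hM ht htM hσ hσ1 hp hp2
  have hgr := one_le_growth d ht
  have hlog := Real.log_nonneg ht
  have hσ' : (0 : ℝ) < σ := hσ
  have hMpos : (0 : ℝ) < M := by exact_mod_cast Nat.pos_of_ne_zero (NeZero.ne M)
  have hSum' : ∀ (z a : ℝ) (V : Tor d M → ℝ), z ≤ 2 * d + 1 → (∀ x, -1 ≤ V x) →
      (AM z V).PosDef → 1 / 2 ≤ a → a ≤ 15 * t → (∀ x, a ≤ DD z V x) →
      (∀ x, DD z V x ≤ 3 / 2 * a) →
      ∀ x, ∑ y, (GM z V x y) ^ 2 ≤ C * growth d t ∧ GM z V x x ≤ C :=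
    fun z a V h1 h2 h3 h4 h5 h6 h7 => hSumC M z t a V hM ht htM h1 h2 h3 h4 h5 h6 h7
  obtain ⟨v, hv⟩ : ∃ v : ℝ≥0, v = σ ^ 2 := ⟨_, rfl⟩
  have hvv : (v : ℝ) = (σ : ℝ) ^ 2 := by rw [hv]; push_cast; rfl
  obtain ⟨K, hK⟩ : ∃ K : ℕ, K = ⌈40 * (1 + Real.log t)⌉₊ := ⟨_, rfl⟩
  obtain ⟨q, hq⟩ : ∃ q : ℝ, q = (M : ℝ) ^ d * qq C (C * growth d t) v := ⟨_, rfl⟩
  have hq0 : 0 < q := by
    have := qq_pos C (C * growth d t) v
    rw [hq]
    positivity
  have hsg : 0 < (σ : ℝ) ^ 2 * growth d t := by positivity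
  obtain ⟨E, hE⟩ : ∃ E : ℝ, E = Real.exp (-(ε ^ 2 / (288000 * C ^ 2)) /
    ((σ : ℝ) ^ 2 * growth d t)) := ⟨_, rfl⟩
  have hE0 : 0 < E := by rw [hE]; exact Real.exp_pos _
  have hsq : (C + Real.sqrt (C * growth d t)) ^ 2 ≤ 4 * C ^ 2 * growth d t := by
    have h1 : Real.sqrt (C * growth d t) ≤ C * Real.sqrt (growth d t) := by
      rw [Real.sqrt_mul (by positivity)]
      refine mul_le_mul_of_nonneg_right ?_ (Real.sqrt_nonneg _)
      rw [Real.sqrt_le_left (by positivity)]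
      nlinarith
    have h2 : C ≤ C * Real.sqrt (growth d t) := by
      have : 1 ≤ Real.sqrt (growth d t) := Real.one_le_sqrt.2 hgr
      nlinarith
    have h4 : C + Real.sqrt (C * growth d t) ≤ 2 * C * Real.sqrt (growth d t) := by linarith
    have h5 : 0 ≤ C + Real.sqrt (C * growth d t) := by positivity
    calc (C + Real.sqrt (C * growth d t)) ^ 2 ≤ (2 * C * Real.sqrt (growth d t)) ^ 2 :=
          pow_le_pow_left₀ h5 h4 2
      _ = 4 * C ^ 2 * (Real.sqrt (growth d t)) ^ 2 := by ring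
      _ = 4 * C ^ 2 * growth d t := by rw [Real.sq_sqrt (by linarith)]
  have hsqpos : 0 < (C + Real.sqrt (C * growth d t)) ^ 2 := by positivity
  have hε2 : ε ^ 2 ≤ 1 := by nlinarith
  -- comparison of the probabilities
  have hqq : qq C (C * growth d t) v ≤ 2 * E := by
    unfold qq
    rw [hE]
    refine mul_le_mul_of_nonneg_left (Real.exp_le_exp.2 ?_) (by norm_num)
    rw [hvv, neg_div, neg_div, neg_le_neg_iff, div_div]
    have h1 : ε ^ 2 / (288000 * C ^ 2 * ((σ : ℝ) ^ 2 * growth d t)) ≤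
        1 / (288000 * C ^ 2 * ((σ : ℝ) ^ 2 * growth d t)) :=
      div_le_div_of_nonneg_right hε2 (by positivity)
    refine h1.trans (one_div_le_one_div_of_le (by positivity) ?_)
    calc 72000 * (C + Real.sqrt (C * growth d t)) ^ 2 * (σ : ℝ) ^ 2
        ≤ 72000 * (4 * C ^ 2 * growth d t) * (σ : ℝ) ^ 2 := by gcongr
      _ = 288000 * C ^ 2 * ((σ : ℝ) ^ 2 * growth d t) := by ring
  have hKle : (K : ℝ) + 2 ≤ 43 * (1 + Real.log t) := by
    have := (Nat.ceil_lt_add_one (a := 40 * (1 + Real.log t)) (by positivity)).le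
    rw [← hK] at this
    linarith
  have hM0 : 0 < (M : ℝ) ^ d := by positivity
  have hKq : ((K : ℝ) + 2) * q ≤ 86 * ((1 + Real.log t) * (M : ℝ) ^ d * E) := by
    have hq2 : q ≤ (M : ℝ) ^ d * (2 * E) := by
      rw [hq]
      exact mul_le_mul_of_nonneg_left hqq hM0.le
    calc ((K : ℝ) + 2) * q ≤ (43 * (1 + Real.log t)) * ((M : ℝ) ^ d * (2 * E)) :=
          mul_le_mul hKle hq2 hq0.le (by positivity)
      _ = 86 * ((1 + Real.log t) * (M : ℝ) ^ d * E) := by ring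
  have hME : (M : ℝ) ^ d * (2 * E) ≤ 2 * ((1 + Real.log t) * (M : ℝ) ^ d * E) := by
    have h1 : 0 ≤ Real.log t * ((M : ℝ) ^ d * E) := by positivity
    have h2 : 2 * ((1 + Real.log t) * (M : ℝ) ^ d * E) =
        (M : ℝ) ^ d * (2 * E) + 2 * (Real.log t * ((M : ℝ) ^ d * E)) := by ring
    linarith
  have hpE : p = (88 + 4 * C) * ((1 + Real.log t) * (M : ℝ) ^ d * E) := by
    rw [hp, hE]; ring
  have hnn : 0 ≤ (1 + Real.log t) * (M : ℝ) ^ d * E := by positivity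
  have hpq : ((K : ℝ) + 2) * q + (M : ℝ) ^ d * (2 * E) ≤ p := by
    rw [hpE]
    have h1 : 0 ≤ 4 * C * ((1 + Real.log t) * (M : ℝ) ^ d * E) := by positivity
    have h2 : (88 + 4 * C) * ((1 + Real.log t) * (M : ℝ) ^ d * E) =
        88 * ((1 + Real.log t) * (M : ℝ) ^ d * E) +
          4 * C * ((1 + Real.log t) * (M : ℝ) ^ d * E) := by ring
    linarith
  have hpq' : ((K : ℝ) + 2) * q ≤ p := by
    have : 0 ≤ (M : ℝ) ^ d * (2 * E) := by positivity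
    linarith
  obtain ⟨z, μ, m, F, U, hS, halt⟩ := induct H55.gc H61.mcs H61.cov H73.stepD hC
    (by linarith) ht hSum' (v := v) K (by rw [← hq]; linarith)
  rw [← hq] at hS
  have hμ : 10 * t ≤ μ ∧ μ ≤ 12 * t := by
    rcases halt with h | ⟨h1, h2⟩
    · exact h
    · exfalso
      have := ten_le_pow ht
      rw [← hK] at this
      linarith
  have hp'0 : 0 < ((K : ℝ) + 2) * q := by positivity
  have hμ0 := hS.μpos
  have hm0 := hS.mpos
  have hprob := flatE_of_stage hε hC hp'0.le hS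
  rw [hv] at hS
  have hest := est H61.cov hC σ hσ hσ1 hS hp'0 (by linarith)
  refine ⟨z, μ, hμ.1, hμ.2, hS.zle, ?_, ?_⟩
  · refine hest.trans ?_
    have h1 : 1 / μ ≤ 1 / t := one_div_le_one_div_of_le (by linarith) (by linarith [hμ.1])
    have h2 : Real.sqrt (((K : ℝ) + 2) * q) ≤ Real.sqrt p := Real.sqrt_le_sqrt hpq'
    have h3 : 0 ≤ 1 / t := by positivity
    have h4 := Real.sqrt_nonneg p
    have h5 : 0 ≤ (σ : ℝ) ^ 2 := by positivity
    have h6 : 0 ≤ C * (1 / t) := by positivity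
    have h7 : 0 ≤ C * Real.sqrt p := by positivity
    have h8 : (88 + 4 * C) * ((σ : ℝ) ^ 2 + 1 / t + Real.sqrt p) =
        88 * (σ : ℝ) ^ 2 + 4 * (C * (σ : ℝ) ^ 2) + 88 * (1 / t) + 4 * (C * (1 / t)) +
          88 * Real.sqrt p + 4 * (C * Real.sqrt p) := by ring
    rw [h8]
    linarith
  · rw [hv] at hprob
    refine hprob.trans (ENNReal.ofReal_le_ofReal (le_trans ?_ hpq))
    have hexp : Real.exp (-((ε * μ) ^ 2) /
        (5 * (m * (C + Real.sqrt (C * growth d t))) ^ 2 * ((σ ^ 2 : ℝ≥0) : ℝ))) ≤ E := by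
      rw [hE]
      refine Real.exp_le_exp.2 ?_
      rw [← hv, hvv, neg_div, neg_div, neg_le_neg_iff, div_div]
      have hmμ : m ^ 2 ≤ 1.21 * μ ^ 2 := by
        have h1 := hS.mle
        calc m ^ 2 ≤ (1.1 * μ) ^ 2 := pow_le_pow_left₀ hm0.le h1 2
          _ = 1.21 * μ ^ 2 := by ring
      rw [div_le_div_iff₀ (by positivity) (by positivity)]
      have h1 : 5 * (m * (C + Real.sqrt (C * growth d t))) ^ 2 * (σ : ℝ) ^ 2 ≤
          μ ^ 2 * (288000 * C ^ 2 * ((σ : ℝ) ^ 2 * growth d t)) := by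
        calc 5 * (m * (C + Real.sqrt (C * growth d t))) ^ 2 * (σ : ℝ) ^ 2
            = 5 * (m ^ 2 * (C + Real.sqrt (C * growth d t)) ^ 2) * (σ : ℝ) ^ 2 := by ring
          _ ≤ 5 * ((1.21 * μ ^ 2) * (4 * C ^ 2 * growth d t)) * (σ : ℝ) ^ 2 := by gcongr
          _ = 24.2 * (μ ^ 2 * (C ^ 2 * ((σ : ℝ) ^ 2 * growth d t))) := by ring
          _ ≤ 288000 * (μ ^ 2 * (C ^ 2 * ((σ : ℝ) ^ 2 * growth d t))) :=
              mul_le_mul_of_nonneg_right (by norm_num) (by positivity)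
          _ = μ ^ 2 * (288000 * C ^ 2 * ((σ : ℝ) ^ 2 * growth d t)) := by ring
      calc ε ^ 2 * (5 * (m * (C + Real.sqrt (C * growth d t))) ^ 2 * (σ : ℝ) ^ 2)
          ≤ ε ^ 2 * (μ ^ 2 * (288000 * C ^ 2 * ((σ : ℝ) ^ 2 * growth d t))) :=
            mul_le_mul_of_nonneg_left h1 (by positivity)
        _ = (ε * μ) ^ 2 * (288000 * C ^ 2 * ((σ : ℝ) ^ 2 * growth d t)) := by ring
    have h2 : (M : ℝ) ^ d * (2 * Real.exp (-((ε * μ) ^ 2) /
        (5 * (m * (C + Real.sqrt (C * growth d t))) ^ 2 * ((σ ^ 2 : ℝ≥0) : ℝ)))) ≤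
        (M : ℝ) ^ d * (2 * E) := by
      refine mul_le_mul_of_nonneg_left ?_ hM0.le
      linarith
    linarith

theorem fle (cdf : CdfStmt) : FleStmt := by
  classical
  intro d ε hd hε hε1
  obtain ⟨c0, C0, hc0, hC0, hflat⟩ := flatE d hd ε hε hε1
  obtain ⟨Cs, hCs, hsum⟩ := sumAll d hd
  refine ⟨c0, C0, 16 * Cs, hc0, hC0, by linarith, ?_⟩
  intro M' v σ t p hσ hσ1 hv hM' ht htM hp hp2
  have hs : 0 < |σ| := abs_pos.2 hσ
  have : NeZero M' := ⟨by omega⟩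
  obtain ⟨σ', hσ'⟩ : ∃ σ' : ℝ≥0, σ' = ⟨|σ|, hs.le⟩ := ⟨_, rfl⟩
  have hσ'r : (σ' : ℝ) = |σ| := by rw [hσ']; rfl
  have hσ'0 : 0 < σ' := by
    rw [← NNReal.coe_pos, hσ'r]
    exact hs
  have hσ'1 : σ' ≤ 1 := by
    rw [← NNReal.coe_le_coe, hσ'r]
    simpa using hσ1
  have hvv : v = σ' ^ 2 := by
    apply NNReal.coe_injective
    push_cast
    rw [hσ'r, sq_abs]
    exact hv
  obtain ⟨z, μ, hμ1, hμ2, hz, hz2, hprob⟩ := hflat M' t σ' p hM' ht htM hσ'0 hσ'1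
    (by rw [hσ'r, sq_abs]; exact hp) hp2
  rw [hσ'r, sq_abs] at hz2
  rw [← hvv] at hprob
  have hμ0 : 0 < μ := by linarith
  have hprob' : gau d M' v {V | ¬ Flat z μ V} ≤ ENNReal.ofReal p := by
    refine le_trans (measure_mono ?_) hprob
    intro V hV hF
    apply hV
    refine ⟨hF.1, hF.2.1, fun x => (hF.2.2 x).trans ?_⟩
    have : ε * μ ≤ 1 / 50 * μ := mul_le_mul_of_nonneg_right hε1 hμ0.le
    linarith
  refine ⟨z, μ, hz2, hz, by linarith, fun _ => hprob, ?_⟩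
  intro s M N E lam c hE h1 h2 h3 hlog hbox
  exact cpf_core cdf hd hCs hsum hσ hM' ht htM hv hμ1 hμ2 hz
    hprob' s M N E lam c hE h1 h2 h3 hlog hbox

end Pool.Agent.LE.H81Z
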